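import Pool.Agent.Helper35.TP.FreshTP
import Pool.Agent.Helper1.TP.Goals
import Pool.Agent.Helper13.FS.StageI

/-!
# The path event `Unc` in the block model (MET)

The hypothesis `hG` of `stage_worldG` for the event `Unc` (few confined rounds), from the confinement
estimate `Beta` for the old letters.
-/

set_option autoImplicit false
set_option linter.unusedSectionVars false

namespace Pool.Agent.Helper35.TP

open Finset Pool.Agent.Helper35.MP Pool.Agent.Helper13.FS
open Pool.Agent.Helper1.TP (Conf Unc Beta extW extG hp vis)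
open Pool.Agent.Helper4.FS (World Lt Stp prog)

variable {n q s : ℕ} {ι : Type} [Fintype ι] [DecidableEq ι] {θ : ℝ}

theorem extW_congr {N : ℕ} (A A' : Fin N → Equiv.Perm (Fin n)) (i : ℕ)
    (h : ∀ hi : i < N, A ⟨i, hi⟩ = A' ⟨i, hi⟩) : extW A i = extW A' i := by
  unfold extW
  split_ifs with h1
  · exact h h1
  · rfl

theorem extG_congr {N : ℕ} (g g' : Fin N → Option (Lt q)) (i : ℕ)
    (h : ∀ hi : i < N, g ⟨i, hi⟩ = g' ⟨i, hi⟩) : extG g i = extG g' i := by
  unfold extG
  split_ifs with h1
  · exact h h1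
  · rfl

theorem blk_congr {Lam : Type*} [Fintype Lam] [DecidableEq Lam] (L : Letters (Fin n) Lam)
    (t0 N : ℕ) (ls ls' : Fin ((t0 + 1) * N) → Lam) (m : ℕ)
    (h : ∀ k : Fin ((t0 + 1) * N), k.val < m → ls k = ls' k) (j : Fin N)
    (hj : (t0 + 1) * j.val + t0 ≤ m) : blk L t0 N ls j = blk L t0 N ls' j := by
  unfold blk
  congr 1
  funext k
  apply h
  have := k.isLt
  show (t0 + 1) * j.val + k.val < m
  omega

theorem block_lt' {v i t1 : ℕ} (h : i < v) : (t1 + 1) * i + t1 < (t1 + 1) * v := by
  have h1 : (t1 + 1) * (i + 1) ≤ (t1 + 1) * v := Nat.mul_le_mul_left _ h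
  rw [Nat.mul_succ] at h1
  omega

open Classical in
/-- MET -/
theorem met_unc [Nonempty ι] (z : ι → Equiv.Perm (Fin n)) (hq : 0 < q) (h0 : 0 < θ)
    (h12 : θ ≤ 1 / 2) (t0 N : ℕ) (hN : 0 < N) (t2 : ℕ) (ht2 : t2 ≤ t0) (c B : ℕ) (β : ℝ)
    (hβ : Beta (gl z) (lwt ι (1 / 2)) s t2 (2 * N * s) c β)
    (c0 : ℝ) (hc0 : 0 < c0) (Bd : ℝ)
    (hpc : β < c0 * Real.exp (- ((4 * (1 + 1 / θ) * (t2 * Bd) + 1) / c0)))
    (hB : 8 * c0 * N ≤ (B : ℝ) + 1) :
    ∀ (y : Fin q → Equiv.Perm (Fin n)) (v : (Fin s ↪ Fin n) → ℝ), (∀ x, 0 ≤ v x) →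
      ∑ x, v x ^ 2 = 1 →
      (∀ k, ∑ l, sch t0 N (Zw ι q) (Yv ι q θ) k l *
        ∑ x, (v x - v ((tup (gl (Sum.elim z y)) s).act l x)) ^ 2 ≤ Bd) →
      ∑ x : Fin s ↪ Fin n, ∑ ls : Fin ((t0 + 1) * N) → Option ((ι ⊕ Fin q) × Bool) with
        ¬ Unc y (extW (blk (gl (Sum.elim z y)) t0 N ls)) (extG fun j => φ (ls (sl t0 N j)))
          N c B x,
        v x ^ 2 * pw (tup (gl (Sum.elim z y)) s) ((t0 + 1) * N)
          (mets (tup (gl (Sum.elim z y)) s) (fun y => v y ^ 2) (sch t0 N (Zw ι q) (Yv ι q θ)))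
          ls x ≤ 1 / 8 := by
  intro y
  obtain ⟨m, rfl⟩ : ∃ m, t0 = m + t2 := ⟨t0 - t2, by omega⟩
  obtain ⟨L, hL⟩ : ∃ L : Letters (Fin n) (Option ((ι ⊕ Fin q) × Bool)), L = gl (Sum.elim z y) :=
    ⟨_, rfl⟩
  rw [← hL]
  have hWt : ∀ k, Wt (tup L s) θ (sch (m + t2) N (Zw ι q) (Yv ι q θ) k) := fun k => by
    rw [hL]
    exact Wt_tup _ _ (sch_Wt (Zv_Wt z y h12) (Yv_Wt z y hq h0 h12) (m + t2) N k)
  have hwin : ∀ i : Fin N, (m + t2 + 1) * i.val + m + t2 = (m + t2 + 1) * i.val + (m + t2) :=
    fun i => by omega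
  have hht : ∀ i : Fin N, (m + t2 + 1) * i.val + m + t2 ≤ (m + t2 + 1) * N := fun i => by
    rw [hwin i]
    exact (block_lt' i.isLt).le
  apply freshG (tup L s) h0 (sch (m + t2) N (Zw ι q) (Yv ι q θ)) hWt hN
    (fun i => (m + t2 + 1) * i.val + m) t2 hht
    (fun i x ls => Conf y (extW (blk L (m + t2) N ls))
      (extG fun j => φ (ls (sl (m + t2) N j))) i c x) ?_ β ?_ c0 hc0 Bd hpc
    (fun x ls => Unc y (extW (blk L (m + t2) N ls))
      (extG fun j => φ (ls (sl (m + t2) N j))) N c B x) ?_
  · -- decided by the slots before the letter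
    intro i x ls ls' h
    have h' : ∀ k : Fin ((m + t2 + 1) * N), k.val < (m + t2 + 1) * i.val + (m + t2) →
        ls k = ls' k := fun k hk => h k (by
          show k.val < (m + t2 + 1) * i.val + m + t2
          omega)
    have h1 : ∀ j, j < i.val → extW (blk L (m + t2) N ls) j = extW (blk L (m + t2) N ls') j ∧
        extG (fun j => φ (ls (sl (m + t2) N j))) j =
          extG (fun j => φ (ls' (sl (m + t2) N j))) j := fun j hj => by
      have h2 := block_lt' (t1 := m + t2) hj
      refine ⟨extW_congr _ _ _ fun hi => ?_, extG_congr _ _ _ fun hi => ?_⟩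
      · apply blk_congr L (m + t2) N ls ls' _ h'
        show (m + t2 + 1) * j + (m + t2) ≤ _
        omega
      · show φ (ls (sl (m + t2) N ⟨j, hi⟩)) = φ (ls' (sl (m + t2) N ⟨j, hi⟩))
        rw [h' (sl (m + t2) N ⟨j, hi⟩) (by
          show (m + t2 + 1) * j + (m + t2) < _
          omega)]
    rw [conf_iff y (fun j _ => ⟨rfl, rfl⟩ : ∀ j, j < i.val →
      extW (blk L (m + t2) N ls) j = extW (blk L (m + t2) N ls) j ∧
        extG (fun j => φ (ls (sl (m + t2) N j))) j =
          extG (fun j => φ (ls (sl (m + t2) N j))) j) c x, conf_iff y h1 c x,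
      extW_congr (blk L (m + t2) N ls) (blk L (m + t2) N ls') i fun hi => by
        apply blk_congr L (m + t2) N ls ls' _ h'
        exact le_rfl]
  · -- the conditional probability
    intro i x ls
    obtain ⟨A, hA⟩ : ∃ A, A = extW (blk L (m + t2) N ls) := ⟨_, rfl⟩
    obtain ⟨g, hg⟩ : ∃ g : ℕ → Option (Lt q), g = extG fun j => φ (ls (sl (m + t2) N j)) :=
      ⟨_, rfl⟩
    obtain ⟨U, hU⟩ : ∃ U, U = vis y A g i x := ⟨_, rfl⟩
    have hi0 : ∀ k : ℕ, k < m → (m + t2 + 1) * i.val + k < (m + t2 + 1) * N := fun k hk => by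
      have := hht i
      omega
    obtain ⟨g0, hg0⟩ : ∃ g0 : Equiv.Perm (Fin n), g0 = wd L m fun k : Fin m =>
        ls ⟨(m + t2 + 1) * i.val + k.val, hi0 k k.isLt⟩ := ⟨_, rfl⟩
    obtain ⟨a, ha⟩ : ∃ a : Fin s ↪ Fin n, ∀ l, a l = g0 (hp y A g (2 * i.val) (x l)) :=
      ⟨⟨fun l => g0 (hp y A g (2 * i.val) (x l)), fun l l' h =>
        x.injective (hp_inj _ _ _ _ (g0.injective h))⟩, fun _ => rfl⟩
    have hUc : U.card ≤ 2 * N * s := by
      rw [hU]
      refine (card_vis _ _ _ _ _).trans ?_
      apply Nat.mul_le_mul_right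
      have := i.isLt
      omega
    have hslot : ∀ j : Fin t2, sch (m + t2) N (Zw ι q) (Yv ι q θ)
        ⟨(m + t2 + 1) * i.val + m + j.val, by have := hht i; omega⟩ = Zw ι q := by
      intro j
      unfold sch
      rw [if_neg]
      show ¬ ((m + t2 + 1) * i.val + m + j.val) % (m + t2 + 1) = m + t2
      rw [Nat.add_assoc, Nat.mul_add_mod, Nat.mod_eq_of_lt (by omega)]
      omega
    have hiff : ∀ u : Fin t2 → Option (ι × Bool), Conf y
        (extW (blk L (m + t2) N (ovr ls ((m + t2 + 1) * i.val + m) t2 fun j => χ (u j))))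
        (extG fun j => φ (ovr ls ((m + t2 + 1) * i.val + m) t2 (fun j => χ (u j))
          (sl (m + t2) N j))) i c x ↔
        c ≤ ((univ : Finset (Fin s)).filter fun l => wd (gl z) t2 u (a l) ∈ U).card := by
      intro u
      obtain ⟨ls', hls'⟩ : ∃ ls', ls' =
          ovr ls ((m + t2 + 1) * i.val + m) t2 fun j => χ (u j) := ⟨_, rfl⟩
      rw [← hls']
      have h0 : ∀ k : Fin ((m + t2 + 1) * N), k.val < (m + t2 + 1) * i.val + m →
          ls k = ls' k := by
        intro k hk
        rw [hls']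
        unfold ovr
        rw [dif_neg (by omega)]
      have h1 : ∀ j, j < i.val → A j = extW (blk L (m + t2) N ls') j ∧
          g j = extG (fun j => φ (ls' (sl (m + t2) N j))) j := fun j hj => by
        have h2 := block_lt' (t1 := m + t2) hj
        rw [hA, hg]
        refine ⟨extW_congr _ _ _ fun hi => ?_, extG_congr _ _ _ fun hi => ?_⟩
        · apply blk_congr L (m + t2) N ls ls' _ h0
          show (m + t2 + 1) * j + (m + t2) ≤ _
          omega
        · show φ (ls (sl (m + t2) N ⟨j, hi⟩)) = φ (ls' (sl (m + t2) N ⟨j, hi⟩))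
          rw [h0 (sl (m + t2) N ⟨j, hi⟩) (by
            show (m + t2 + 1) * j + (m + t2) < _
            omega)]
      rw [conf_iff y h1 c x, ← hU]
      have h3 : extW (blk L (m + t2) N ls') i = wd (gl z) t2 u * g0 := by
        unfold extW
        rw [dif_pos i.isLt]
        unfold blk
        rw [wd_add, hg0]
        congr 1
        · rw [← wd_push L (gl z) χ (by rw [hL]; exact act_χ z y)]
          congr 1
          funext k
          rw [hls']
          unfold ovr
          have hk := k.isLt
          have hv : ((Fin.natAdd m k : Fin (m + t2)) : ℕ) = m + k.val := rfl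
          rw [dif_pos ⟨by show _ ≤ (m + t2 + 1) * i.val + (Fin.natAdd m k).val; rw [hv]; omega,
            by show (m + t2 + 1) * i.val + (Fin.natAdd m k).val < _; rw [hv]; omega⟩]
          congr 3
          show (m + t2 + 1) * i.val + (Fin.natAdd m k).val - ((m + t2 + 1) * i.val + m) = k.val
          rw [hv]
          omega
        · congr 1
          funext k
          symm
          apply h0
          show (m + t2 + 1) * i.val + (Fin.castAdd t2 k).val < _
          have hk := k.isLt
          have hv : ((Fin.castAdd t2 k : Fin (m + t2)) : ℕ) = k.val := rfl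
          rw [hv]
          omega
      have h5 : ((univ : Finset (Fin s)).filter fun l =>
          extW (blk L (m + t2) N ls') i (hp y A g (2 * i.val) (x l)) ∈ U) =
          (univ : Finset (Fin s)).filter fun l => wd (gl z) t2 u (a l) ∈ U := by
        apply filter_congr
        intro l _
        rw [h3, Equiv.Perm.mul_apply, ← ha]
      rw [h5]
    have h1 := sum_push (t := t2) χ (χ_inj (ι := ι) (q := q)) (fun _ => Zw ι q)
      (fun _ => Zw_zero) (fun u => if Conf y
        (extW (blk L (m + t2) N (ovr ls ((m + t2 + 1) * i.val + m) t2 u)))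
        (extG fun j => φ (ovr ls ((m + t2 + 1) * i.val + m) t2 u (sl (m + t2) N j))) i c x
          then 1 else 0)
    have h2 := hβ a U hUc
    rw [sum_filter]
    calc _ = ∑ u : Fin t2 → Option ((ι ⊕ Fin q) × Bool), (∏ j, Zw ι q (u j)) * (if Conf y
          (extW (blk L (m + t2) N (ovr ls ((m + t2 + 1) * i.val + m) t2 u)))
          (extG fun j => φ (ovr ls ((m + t2 + 1) * i.val + m) t2 u (sl (m + t2) N j))) i c x
            then 1 else 0) := by
          apply sum_congr rfl
          intro u _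
          rw [prod_congr rfl fun j _ => by rw [hslot j]]
          split_ifs <;> simp
      _ = _ := h1
      _ = ∑ u : Fin t2 → Option (ι × Bool), (if c ≤ ((univ : Finset (Fin s)).filter fun l =>
          wd (gl z) t2 u (a l) ∈ U).card then ∏ j, lwt ι (1 / 2) (u j) else 0) := by
          apply sum_congr rfl
          intro u _
          rw [prod_congr rfl fun j _ => Zw_χ (q := q) (u j)]
          by_cases h3 : c ≤ ((univ : Finset (Fin s)).filter fun l =>
              wd (gl z) t2 u (a l) ∈ U).card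
          · rw [if_pos h3, if_pos ((hiff u).2 h3), mul_one]
          · rw [if_neg h3, if_neg fun h4 => h3 ((hiff u).1 h4), mul_zero]
      _ ≤ β := h2
  · intro x ls hG
    have h1 : B + 1 ≤ ((range N).filter fun v =>
        Conf y (extW (blk L (m + t2) N ls)) (extG fun j => φ (ls (sl (m + t2) N j)))
          v c x).card := by
      by_contra hcon
      apply hG
      show ((range N).filter fun v => Conf y (extW (blk L (m + t2) N ls))
        (extG fun j => φ (ls (sl (m + t2) N j))) v c x).card ≤ B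
      omega
    have h2 : ((range N).filter fun v => Conf y (extW (blk L (m + t2) N ls))
        (extG fun j => φ (ls (sl (m + t2) N j))) v c x).card ≤
        (univ.filter fun i : Fin N => Conf y (extW (blk L (m + t2) N ls))
          (extG fun j => φ (ls (sl (m + t2) N j))) i c x).card := by
      have h3 : ((range N).filter fun v => Conf y (extW (blk L (m + t2) N ls))
          (extG fun j => φ (ls (sl (m + t2) N j))) v c x) ⊆
          (univ.filter fun i : Fin N => Conf y (extW (blk L (m + t2) N ls))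
            (extG fun j => φ (ls (sl (m + t2) N j))) i c x).image Fin.val := by
        intro v hv
        rw [mem_filter, mem_range] at hv
        rw [mem_image]
        exact ⟨⟨v, hv.1⟩, by rw [mem_filter]; exact ⟨mem_univ _, hv.2⟩, rfl⟩
      exact (card_le_card h3).trans card_image_le
    have h4 : ((B : ℝ) + 1) ≤ (univ.filter fun i : Fin N =>
        Conf y (extW (blk L (m + t2) N ls)) (extG fun j => φ (ls (sl (m + t2) N j)))
          i c x).card := by
      exact_mod_cast h1.trans h2
    exact hB.trans h4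

end Pool.Agent.Helper35.TP
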