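import Pool.Agent.Helper1.TP.Defs
import Pool.Agent.Helper35.MP.Fresh

/-!
# The path event `GG` has Metropolis mass at least `7 / 8`

The input is the confinement estimate `hconf` for the old letters: for every injective start tuple `a`
and every set `U` of at most `2 N s` points, the words of length `t2` which send at least `c` of the
points `a l` into `U` have weight `≤ p`.
-/

set_option autoImplicit false
set_option linter.unusedSectionVars false

namespace Pool.Agent.Helper35.TP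

open Finset Pool.Agent.Helper35.MP Pool.Agent.Helper13.FS Pool.Agent.Helper1.TP
open Pool.Agent.Helper4.FS (World Lt Stp prog)

variable {q n s : ℕ} {LZ : Type} [Fintype LZ] [DecidableEq LZ]

theorem zprod_congr (Z : Letters (Fin n) LZ) (f f' : ℕ → LZ ⊕ Lt q) :
    ∀ i, (∀ k, k < i → f k = f' k) → zprod Z f i = zprod Z f' i
  | 0, _ => rfl
  | i + 1, h => by
    show zact Z (f i) * zprod Z f i = zact Z (f' i) * zprod Z f' i
    rw [h i (by omega), zprod_congr Z f f' i fun k hk => h k (by omega)]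

theorem zprod_add (Z : Letters (Fin n) LZ) (f : ℕ → LZ ⊕ Lt q) (i : ℕ) :
    ∀ j, zprod Z f (i + j) = zprod Z (fun k => f (i + k)) j * zprod Z f i
  | 0 => by
    show zprod Z f i = 1 * zprod Z f i
    rw [one_mul]
  | j + 1 => by
    show zact Z (f (i + j)) * zprod Z f (i + j) =
      zact Z (f (i + j)) * zprod Z (fun k => f (i + k)) j * zprod Z f i
    rw [zprod_add Z f i j, mul_assoc]

theorem zprod_pos (Z : Letters (Fin n) LZ) : ∀ (t : ℕ) (u : Fin t → LZ) (f : ℕ → LZ ⊕ Lt q)
    (p : Fin n), (∀ k (hk : k < t), f k = Sum.inl (u ⟨k, hk⟩)) → zprod Z f t p = pos Z t u p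
  | 0, _, _, _, _ => rfl
  | t + 1, u, f, p, h => by
    have h0 : zprod Z f (t + 1) = zprod Z f (1 + t) := by rw [Nat.add_comm t 1]
    rw [h0, zprod_add, Equiv.Perm.mul_apply]
    have h1 : zprod Z f 1 p = Z.act (u 0) p := by
      show (zact Z (f 0) * 1) p = _
      rw [mul_one, h 0 (by omega)]
      rfl
    rw [h1, zprod_pos Z t (fun k => u k.succ) (fun k => f (1 + k)) _ fun k hk => by
      show f (1 + k) = _
      rw [h (1 + k) (by omega)]
      congr 2
      apply Fin.ext
      show 1 + k = k + 1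
      omega]
    rfl

theorem prog_congr {a a' : ℕ → Equiv.Perm (Fin n)} {g g' : ℕ → Option (Lt q)} {v : ℕ}
    (h : ∀ i, i < v → a i = a' i ∧ g i = g' i) (t : ℕ) (ht : t < 2 * v) :
    prog a g t = prog a' g' t := by
  unfold prog
  rw [(h (t / 2) (by omega)).1, (h (t / 2) (by omega)).2]

theorem hp_congr (y : World q n) {a a' : ℕ → Equiv.Perm (Fin n)} {g g' : ℕ → Option (Lt q)}
    {v : ℕ} (h : ∀ i, i < v → a i = a' i ∧ g i = g' i) : ∀ t, t ≤ 2 * v → ∀ p,
      hp y a g t p = hp y a' g' t p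
  | 0, _, _ => rfl
  | t + 1, ht, p => by
    have ih := hp_congr y h t (by omega) p
    unfold hp at ih ⊢
    rw [Pool.Agent.Helper4.FS.pos_succ, Pool.Agent.Helper4.FS.pos_succ, ih, Nat.zero_add,
      prog_congr h t (by omega)]

theorem hp_odd (y : World q n) (a : ℕ → Equiv.Perm (Fin n)) (g : ℕ → Option (Lt q)) (v : ℕ)
    (p : Fin n) : hp y a g (2 * v + 1) p = a v (hp y a g (2 * v) p) :=
  Pool.Agent.Helper4.FS.pos_even_step a g y p v

theorem hp_inj (y : World q n) (a : ℕ → Equiv.Perm (Fin n)) (g : ℕ → Option (Lt q)) (t : ℕ) :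
    Function.Injective (hp y a g t) := fun _ _ h => Pool.Agent.Helper4.FS.pos_inj _ _ _ _ h

theorem vis_congr (y : World q n) {a a' : ℕ → Equiv.Perm (Fin n)} {g g' : ℕ → Option (Lt q)}
    {v : ℕ} (h : ∀ i, i < v → a i = a' i ∧ g i = g' i) (x : Fin s → Fin n) :
    vis y a g v x = vis y a' g' v x := by
  unfold vis
  apply image_congr
  intro lt hlt
  rw [mem_coe, mem_product, mem_Icc] at hlt
  exact hp_congr y h _ hlt.2.2 _

theorem card_vis (y : World q n) (a : ℕ → Equiv.Perm (Fin n)) (g : ℕ → Option (Lt q)) (v : ℕ)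
    (x : Fin s → Fin n) : (vis y a g v x).card ≤ 2 * v * s := by
  unfold vis
  refine card_image_le.trans ?_
  rw [card_product, card_univ, Fintype.card_fin, Nat.card_Icc]
  have : 2 * v + 1 - 1 = 2 * v := by omega
  rw [this, Nat.mul_comm]

theorem conf_iff (y : World q n) {a a' : ℕ → Equiv.Perm (Fin n)} {g g' : ℕ → Option (Lt q)}
    {v : ℕ} (h : ∀ i, i < v → a i = a' i ∧ g i = g' i) (c : ℕ) (x : Fin s → Fin n) :
    Conf y a' g' v c x ↔
      c ≤ ((univ : Finset (Fin s)).filter fun l => a' v (hp y a g (2 * v) (x l)) ∈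
        vis y a g v x).card := by
  unfold Conf
  rw [← vis_congr y h x]
  have h1 : ((univ : Finset (Fin s)).filter fun l => hp y a' g' (2 * v + 1) (x l) ∈
      vis y a g v x) = (univ : Finset (Fin s)).filter fun l =>
        a' v (hp y a g (2 * v) (x l)) ∈ vis y a g v x := by
    apply filter_congr
    intro l _
    rw [hp_odd, ← hp_congr y h _ le_rfl]
  rw [h1]

theorem ext_congr {M : ℕ} (Z : Letters (Fin n) LZ) (ls ls' : Fin M → LZ ⊕ Lt q) (m : ℕ)
    (h : ∀ k : Fin M, k.val < m → ls k = ls' k) (i : ℕ) (hi : i < m) :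
    Pool.Agent.Helper1.TP.ext Z ls i = Pool.Agent.Helper1.TP.ext Z ls' i := by
  unfold Pool.Agent.Helper1.TP.ext
  split_ifs with h1
  · exact h ⟨i, h1⟩ hi
  · rfl

theorem gof_congr {M : ℕ} (Z : Letters (Fin n) LZ) (t1 : ℕ) (ls ls' : Fin M → LZ ⊕ Lt q)
    (m : ℕ) (h : ∀ k : Fin M, k.val < m → ls k = ls' k) (i : ℕ) (hi : i * (t1 + 1) + t1 < m) :
    gof Z t1 ls i = gof Z t1 ls' i := by
  unfold gof
  rw [ext_congr Z ls ls' m h _ hi]

theorem aof_congr {M : ℕ} (Z : Letters (Fin n) LZ) (t1 : ℕ) (ls ls' : Fin M → LZ ⊕ Lt q)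
    (m : ℕ) (h : ∀ k : Fin M, k.val < m → ls k = ls' k) (i : ℕ) (hi : i * (t1 + 1) + t1 ≤ m) :
    aof Z t1 ls i = aof Z t1 ls' i := by
  unfold aof
  apply zprod_congr
  intro k hk
  exact ext_congr Z ls ls' m h _ (by omega)

theorem block_lt {v i t1 : ℕ} (h : i < v) : i * (t1 + 1) + t1 < v * (t1 + 1) := by
  have h1 : (i + 1) * (t1 + 1) ≤ v * (t1 + 1) := Nat.mul_le_mul_right _ h
  rw [Nat.succ_mul] at h1
  omega

/-- word slots only see the old letters -/
theorem sum_wz (S0 : LZ → ℝ) (t : ℕ) (F : (Fin t → LZ ⊕ Lt q) → ℝ) :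
    ∑ u : Fin t → LZ ⊕ Lt q, (∏ j, wz q S0 (u j)) * F u =
      ∑ u : Fin t → LZ, (∏ j, S0 (u j)) * F fun j => Sum.inl (u j) := by
  symm
  apply Fintype.sum_of_injective (fun u : Fin t → LZ => fun j => (Sum.inl (u j) : LZ ⊕ Lt q))
  · intro u u' h
    funext j
    exact Sum.inl_injective (congrFun h j)
  · intro u hu
    have h1 : ∃ j, ∀ l, u j ≠ Sum.inl l := by
      by_contra hcon
      push Not at hcon
      choose w hw using hcon
      exact hu ⟨w, funext fun j => (hw j).symm⟩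
    obtain ⟨j, hj⟩ := h1
    have h2 : wz q S0 (u j) = 0 := by
      rcases huj : u j with l | m
      · exact absurd huj (hj l)
      · rfl
    rw [prod_eq_zero (mem_univ j) h2, zero_mul]
  · intro u
    rfl

open Classical in
theorem fresh_mass (Z : Letters (Fin n) LZ) (y : World q n) {θ : ℝ} (hθ : 0 < θ) (lz : ℝ)
    (S0 : LZ → ℝ) (t1 N : ℕ) (hN : 0 < N)
    (hS : ∀ k, Wt (tup (comb Z y) s) θ (sch q Z lz S0 t1 N k))
    (t2 : ℕ) (ht2 : t2 ≤ t1) (c B : ℕ) (p : ℝ)
    (hconf : ∀ (a : Fin s ↪ Fin n) (U : Finset (Fin n)), U.card ≤ 2 * N * s →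
      ∑ u : Fin t2 → LZ with c ≤ ((univ : Finset (Fin s)).filter fun l =>
        pos Z t2 u (a l) ∈ U).card, ∏ j, S0 (u j) ≤ p)
    (c0 : ℝ) (hc0 : 0 < c0) (Bd : ℝ)
    (hpc : p < c0 * Real.exp (- ((4 * (1 + 1 / θ) * (t2 * Bd) + 1) / c0)))
    (hB : 8 * c0 * N ≤ (B : ℝ) + 1)
    [∀ x : Fin s ↪ Fin n, DecidablePred (GG Z y t1 N c B x)] :
    ∀ v : (Fin s ↪ Fin n) → ℝ, (∀ x, 0 ≤ v x) → ∑ x, v x ^ 2 = 1 →
      (∀ k, ∑ l, sch q Z lz S0 t1 N k l *
        ∑ x, (v x - v ((tup (comb Z y) s).act l x)) ^ 2 ≤ Bd) →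
      ∑ x, ∑ ls : Fin (MM t1 N) → LZ ⊕ Lt q with ¬ GG Z y t1 N c B x ls,
        v x ^ 2 * pw (tup (comb Z y) s) (MM t1 N) (mets (tup (comb Z y) s) (fun x => v x ^ 2)
          (sch q Z lz S0 t1 N)) ls x ≤ 1 / 8 := by
  have hwin : ∀ i : Fin N, i.val * (t1 + 1) + (t1 - t2) + t2 = i.val * (t1 + 1) + t1 :=
    fun i => by omega
  have hht : ∀ i : Fin N, i.val * (t1 + 1) + (t1 - t2) + t2 ≤ MM t1 N := fun i => by
    rw [hwin i]
    exact (block_lt i.isLt).le
  apply freshG (tup (comb Z y) s) hθ (sch q Z lz S0 t1 N) hS hN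
    (fun i => i.val * (t1 + 1) + (t1 - t2)) t2 hht
    (fun i x ls => Conf y (aof Z t1 ls) (gof Z t1 ls) i c x) ?_ p ?_ c0 hc0 Bd hpc
    (GG Z y t1 N c B) ?_
  · -- decided by the slots before the letter
    intro i x ls ls' h
    have h' : ∀ k : Fin (MM t1 N), k.val < i.val * (t1 + 1) + t1 → ls k = ls' k :=
      fun k hk => h k (by rw [hwin i]; exact hk)
    have h1 : ∀ j, j < i.val → aof Z t1 ls j = aof Z t1 ls' j ∧ gof Z t1 ls j = gof Z t1 ls' j :=
      fun j hj => by
        have := block_lt (t1 := t1) hj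
        exact ⟨aof_congr Z t1 ls ls' _ h' j (by omega), gof_congr Z t1 ls ls' _ h' j (by omega)⟩
    rw [conf_iff y (fun j _ => ⟨rfl, rfl⟩ : ∀ j, j < i.val →
      aof Z t1 ls j = aof Z t1 ls j ∧ gof Z t1 ls j = gof Z t1 ls j) c x, conf_iff y h1 c x,
      aof_congr Z t1 ls ls' _ h' i le_rfl]
  · -- the conditional probability
    intro i x ls
    obtain ⟨U, hU⟩ : ∃ U, U = vis y (aof Z t1 ls) (gof Z t1 ls) i x := ⟨_, rfl⟩
    obtain ⟨g0, hg0⟩ : ∃ g0 : Equiv.Perm (Fin n), g0 = zprod Z (fun j =>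
        Pool.Agent.Helper1.TP.ext Z ls (i.val * (t1 + 1) + j)) (t1 - t2) := ⟨_, rfl⟩
    obtain ⟨a, ha⟩ : ∃ a : Fin s ↪ Fin n, ∀ l, a l =
        g0 (hp y (aof Z t1 ls) (gof Z t1 ls) (2 * i.val) (x l)) :=
      ⟨⟨fun l => g0 (hp y (aof Z t1 ls) (gof Z t1 ls) (2 * i.val) (x l)), fun l l' h =>
        x.injective (hp_inj _ _ _ _ (g0.injective h))⟩, fun _ => rfl⟩
    have hUc : U.card ≤ 2 * N * s := by
      rw [hU]
      refine (card_vis _ _ _ _ _).trans ?_
      apply Nat.mul_le_mul_right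
      have := i.isLt
      omega
    have hslot : ∀ j : Fin t2, sch q Z lz S0 t1 N
        ⟨i.val * (t1 + 1) + (t1 - t2) + j.val, by have := hht i; omega⟩ = wz q S0 := by
      intro j
      unfold sch
      rw [if_neg]
      show ¬ (i.val * (t1 + 1) + (t1 - t2) + j.val) % (t1 + 1) = t1
      have h1 : (i.val * (t1 + 1) + (t1 - t2) + j.val) % (t1 + 1) = (t1 - t2) + j.val := by
        rw [Nat.add_assoc, Nat.add_comm, Nat.add_mul_mod_self_right, Nat.mod_eq_of_lt (by omega)]
      rw [h1]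
      omega
    have hiff : ∀ u : Fin t2 → LZ, Conf y
        (aof Z t1 (ovr ls (i.val * (t1 + 1) + (t1 - t2)) t2 fun j => Sum.inl (u j)))
        (gof Z t1 (ovr ls (i.val * (t1 + 1) + (t1 - t2)) t2 fun j => Sum.inl (u j))) i c x ↔
        c ≤ ((univ : Finset (Fin s)).filter fun l => pos Z t2 u (a l) ∈ U).card := by
      intro u
      obtain ⟨ls', hls'⟩ : ∃ ls', ls' =
          ovr ls (i.val * (t1 + 1) + (t1 - t2)) t2 fun j => Sum.inl (u j) := ⟨_, rfl⟩
      rw [← hls']
      have h0 : ∀ k : Fin (MM t1 N), k.val < i.val * (t1 + 1) + (t1 - t2) → ls k = ls' k := by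
        intro k hk
        rw [hls']
        unfold ovr
        rw [dif_neg (by omega)]
      have h1 : ∀ j, j < i.val → aof Z t1 ls j = aof Z t1 ls' j ∧
          gof Z t1 ls j = gof Z t1 ls' j := fun j hj => by
        have := block_lt (t1 := t1) hj
        exact ⟨aof_congr Z t1 ls ls' _ h0 j (by omega), gof_congr Z t1 ls ls' _ h0 j (by omega)⟩
      rw [conf_iff y h1 c x, ← hU]
      have h2 : ∀ l, aof Z t1 ls' i (hp y (aof Z t1 ls) (gof Z t1 ls) (2 * i.val) (x l)) =
          pos Z t2 u (a l) := by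
        intro l
        have h3 : aof Z t1 ls' i = zprod Z (fun k => Pool.Agent.Helper1.TP.ext Z ls'
            (i.val * (t1 + 1) + ((t1 - t2) + k))) t2 * g0 := by
          unfold aof
          have h4 : t1 = (t1 - t2) + t2 := by omega
          rw [show zprod Z (fun j => Pool.Agent.Helper1.TP.ext Z ls' (i.val * (t1 + 1) + j)) t1 =
            zprod Z (fun j => Pool.Agent.Helper1.TP.ext Z ls' (i.val * (t1 + 1) + j))
              ((t1 - t2) + t2) by rw [← h4], zprod_add]
          congr 1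
          rw [hg0]
          apply zprod_congr
          intro k hk
          exact (ext_congr Z ls ls' _ h0 _ (by omega)).symm
        rw [h3, Equiv.Perm.mul_apply, ← ha]
        apply zprod_pos
        intro k hk
        unfold Pool.Agent.Helper1.TP.ext
        have hb := hht i
        rw [dif_pos (by omega), hls']
        unfold ovr
        rw [dif_pos ⟨by show _ ≤ i.val * (t1 + 1) + ((t1 - t2) + k); omega,
          by show i.val * (t1 + 1) + ((t1 - t2) + k) < _; omega⟩]
        congr 3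
        show i.val * (t1 + 1) + ((t1 - t2) + k) - (i.val * (t1 + 1) + (t1 - t2)) = k
        omega
      have h5 : ((univ : Finset (Fin s)).filter fun l =>
          aof Z t1 ls' i (hp y (aof Z t1 ls) (gof Z t1 ls) (2 * i.val) (x l)) ∈ U) =
          (univ : Finset (Fin s)).filter fun l => pos Z t2 u (a l) ∈ U := by
        apply filter_congr
        intro l _
        rw [h2]
      rw [h5]
    have h1 := sum_wz (q := q) S0 t2 (fun u => if Conf y
      (aof Z t1 (ovr ls (i.val * (t1 + 1) + (t1 - t2)) t2 u))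
      (gof Z t1 (ovr ls (i.val * (t1 + 1) + (t1 - t2)) t2 u)) i c x then 1 else 0)
    have h2 := hconf a U hUc
    rw [sum_filter] at h2 ⊢
    calc _ = ∑ u : Fin t2 → LZ ⊕ Lt q, (∏ j, wz q S0 (u j)) * (if Conf y
          (aof Z t1 (ovr ls (i.val * (t1 + 1) + (t1 - t2)) t2 u))
          (gof Z t1 (ovr ls (i.val * (t1 + 1) + (t1 - t2)) t2 u)) i c x then 1 else 0) := by
          apply sum_congr rfl
          intro u _
          rw [prod_congr rfl fun j _ => by rw [hslot j]]
          split_ifs <;> simp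
      _ = _ := h1
      _ = ∑ u : Fin t2 → LZ, (if c ≤ ((univ : Finset (Fin s)).filter fun l =>
          pos Z t2 u (a l) ∈ U).card then ∏ j, S0 (u j) else 0) := by
          apply sum_congr rfl
          intro u _
          by_cases h3 : c ≤ ((univ : Finset (Fin s)).filter fun l => pos Z t2 u (a l) ∈ U).card
          · rw [if_pos h3, if_pos ((hiff u).2 h3), mul_one]
          · rw [if_neg h3, if_neg fun h4 => h3 ((hiff u).1 h4), mul_zero]
      _ ≤ p := h2
  · intro x ls hG
    have h1 : B + 1 ≤ ((range N).filter fun v =>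
        Conf y (aof Z t1 ls) (gof Z t1 ls) v c x).card := by
      by_contra hcon
      apply hG
      show ((range N).filter fun v => Conf y (aof Z t1 ls) (gof Z t1 ls) v c x).card ≤ B
      omega
    have h2 : ((range N).filter fun v => Conf y (aof Z t1 ls) (gof Z t1 ls) v c x).card ≤
        (univ.filter fun i : Fin N => Conf y (aof Z t1 ls) (gof Z t1 ls) i c x).card := by
      have h3 : ((range N).filter fun v => Conf y (aof Z t1 ls) (gof Z t1 ls) v c x) ⊆
          (univ.filter fun i : Fin N => Conf y (aof Z t1 ls) (gof Z t1 ls) i c x).image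
            Fin.val := by
        intro v hv
        rw [mem_filter, mem_range] at hv
        rw [mem_image]
        exact ⟨⟨v, hv.1⟩, by rw [mem_filter]; exact ⟨mem_univ _, hv.2⟩, rfl⟩
      exact (card_le_card h3).trans card_image_le
    have h4 : ((B : ℝ) + 1) ≤ (univ.filter fun i : Fin N =>
        Conf y (aof Z t1 ls) (gof Z t1 ls) i c x).card := by
      exact_mod_cast h1.trans h2
    exact hB.trans h4

end Pool.Agent.Helper35.TP
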