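import Pool.Agent.Helper3.AK.Defs

/-!
# The gap on tuples with one more generator (MP_75608d_al, final step)

`gap_snoc`: `TupleGap z r ε` implies `TupleGap (Fin.snoc z y) r (ε k / (k + 1))`.
-/

set_option autoImplicit false

namespace Pool.Agent.Helper35.TP

open Finset
open Pool.Agent.Helper3.AK (Alt TupleGap tupleWalk)

variable {n k r : ℕ}

/-- a permutation of the points acts on tuples -/
def tr (n r : ℕ) (g : Equiv.Perm (Fin n)) : Equiv.Perm (Fin r ↪ Fin n) where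
  toFun a := a.trans g.toEmbedding
  invFun a := a.trans (g⁻¹ : Equiv.Perm (Fin n)).toEmbedding
  left_inv a := by
    ext i
    simp
  right_inv a := by
    ext i
    simp

theorem corr_le (g : Equiv.Perm (Fin n)) (φ : (Fin r ↪ Fin n) → ℝ) :
    ∑ a : Fin r ↪ Fin n, φ a * φ (a.trans g.toEmbedding) ≤ ∑ a, φ a ^ 2 := by
  have h1 : ∑ a : Fin r ↪ Fin n, φ (a.trans g.toEmbedding) ^ 2 = ∑ a, φ a ^ 2 :=
    Equiv.sum_comp (tr n r g) (fun a => φ a ^ 2)
  have h2 : ∑ a : Fin r ↪ Fin n, φ a * φ (a.trans g.toEmbedding) ≤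
      ∑ a : Fin r ↪ Fin n, (1 / 2 * φ a ^ 2 + 1 / 2 * φ (a.trans g.toEmbedding) ^ 2) := by
    apply sum_le_sum
    intro a _
    nlinarith [sq_nonneg (φ a - φ (a.trans g.toEmbedding))]
  rw [sum_add_distrib, ← mul_sum, ← mul_sum, h1] at h2
  linarith

/-- **one more generator** -/
theorem gap_snoc (hk : 0 < k) {z : Fin k → Alt n} {ε : ℝ} (h : TupleGap z r ε) (y : Alt n) :
    TupleGap (Fin.snoc z y : Fin (k + 1) → Alt n) r (ε * k / (k + 1)) := by
  intro φ hφ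
  have hk' : (0 : ℝ) < k := by exact_mod_cast hk
  have h1 := h φ hφ
  have h2 : ∀ a, tupleWalk (Fin.snoc z y : Fin (k + 1) → Alt n) r φ a =
      k / (k + 1) * tupleWalk z r φ a + 1 / (2 * (k + 1)) *
        (φ (a.trans (y : Equiv.Perm (Fin n)).toEmbedding) +
          φ (a.trans ((y)⁻¹ : Equiv.Perm (Fin n)).toEmbedding)) := by
    intro a
    unfold tupleWalk
    rw [Fin.sum_univ_castSucc]
    simp only [Fin.snoc_castSucc, Fin.snoc_last]
    push_cast
    field_simp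
  have h3 : ∑ a, φ a * tupleWalk (Fin.snoc z y : Fin (k + 1) → Alt n) r φ a =
      k / (k + 1) * ∑ a, φ a * tupleWalk z r φ a + 1 / (2 * (k + 1)) *
        (∑ a : Fin r ↪ Fin n, φ a * φ (a.trans (y : Equiv.Perm (Fin n)).toEmbedding) +
          ∑ a : Fin r ↪ Fin n, φ a * φ (a.trans ((y)⁻¹ : Equiv.Perm (Fin n)).toEmbedding)) := by
    rw [mul_sum, ← sum_add_distrib, mul_sum, ← sum_add_distrib]
    apply sum_congr rfl
    intro a _
    rw [h2]
    ring
  rw [h3]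
  have h4 := corr_le (r := r) (y : Equiv.Perm (Fin n)) φ
  have h5 := corr_le (r := r) ((y)⁻¹ : Equiv.Perm (Fin n)) φ
  have h6 : k / (k + 1) * ∑ a, φ a * tupleWalk z r φ a ≤
      (k : ℝ) / (k + 1) * ((1 - ε) * ∑ a, φ a ^ 2) :=
    mul_le_mul_of_nonneg_left h1 (by positivity)
  have h7 : 1 / (2 * ((k : ℝ) + 1)) *
        (∑ a : Fin r ↪ Fin n, φ a * φ (a.trans (y : Equiv.Perm (Fin n)).toEmbedding) +
          ∑ a : Fin r ↪ Fin n, φ a * φ (a.trans ((y)⁻¹ : Equiv.Perm (Fin n)).toEmbedding)) ≤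
      1 / (2 * ((k : ℝ) + 1)) * (2 * ∑ a, φ a ^ 2) :=
    mul_le_mul_of_nonneg_left (by linarith) (by positivity)
  calc _ ≤ (k : ℝ) / (k + 1) * ((1 - ε) * ∑ a, φ a ^ 2) +
        1 / (2 * ((k : ℝ) + 1)) * (2 * ∑ a, φ a ^ 2) := add_le_add h6 h7
    _ = (1 - ε * k / (k + 1)) * ∑ a, φ a ^ 2 := by
        field_simp
        ring

end Pool.Agent.Helper35.TP
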